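import Mathlib

/-! # Free groups are bi-orderable

The Magnus embedding of a free group into the units of the ring of power series in noncommuting
variables, and the order given by the first coefficient, in an order of the words by length, at
which two series differ. -/

set_option autoImplicit false

namespace Pool.Agent.Helper36.HL

open scoped Classical

namespace NS

variable {X : Type*}

/-- the product of two power series in noncommuting variables -/
def mul (f g : List X → ℤ) : List X → ℤ :=
  fun w : List X => ∑ i ∈ Finset.range (w.length + 1), f (w.take i) * g (w.drop i)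

def one : List X → ℤ := fun w => match w with
  | [] => 1
  | _ :: _ => 0

theorem mul_apply (f g : List X → ℤ) (w : List X) :
    mul f g w = ∑ i ∈ Finset.range (w.length + 1), f (w.take i) * g (w.drop i) := rfl

theorem mul_nil (f g : List X → ℤ) : mul f g [] = f [] * g [] := by
  simp [mul]

theorem mul_cons (f g : List X → ℤ) (x : X) (w : List X) :
    mul f g (x :: w) = f [] * g (x :: w) + mul (fun u : List X => f (x :: u)) g w := by
  unfold mul
  rw [List.length_cons, Finset.sum_range_succ']
  simp only [List.take_succ_cons, List.drop_succ_cons, List.take_zero, List.drop_zero]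
  ring

theorem add_mul' (f f' g : List X → ℤ) (w : List X) :
    mul (fun u : List X => f u + f' u) g w = mul f g w + mul f' g w := by
  unfold mul
  rw [← Finset.sum_add_distrib]
  exact Finset.sum_congr rfl fun i _ => by ring

theorem const_mul' (c : ℤ) (f g : List X → ℤ) (w : List X) :
    mul (fun u : List X => c * f u) g w = c * mul f g w := by
  unfold mul
  rw [Finset.mul_sum]
  exact Finset.sum_congr rfl fun i _ => by ring

theorem zero_mul' (g : List X → ℤ) (w : List X) :
    mul (fun _ : List X => (0 : ℤ)) g w = 0 := by
  unfold mul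
  exact Finset.sum_eq_zero fun i _ => by simp

theorem assoc : ∀ (w : List X) (f g h : List X → ℤ), mul (mul f g) h w = mul f (mul g h) w := by
  intro w
  induction w with
  | nil => intro f g h; simp only [mul_nil]; ring
  | cons x w ih =>
    intro f g h
    rw [mul_cons, mul_nil, mul_cons f (mul g h)]
    have h1 : (fun u : List X => mul f g (x :: u)) =
        fun u : List X => f [] * (fun v : List X => g (x :: v)) u +
          (mul (fun v : List X => f (x :: v)) g) u := by
      funext u
      rw [mul_cons]
    rw [h1, add_mul' (fun u : List X => f [] * (fun v : List X => g (x :: v)) u)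
      (mul (fun v : List X => f (x :: v)) g), const_mul' (f []) (fun v : List X => g (x :: v)),
      mul_cons g h, ih]
    ring

theorem one_mul' : ∀ (w : List X) (f : List X → ℤ), mul one f w = f w := by
  intro w
  induction w with
  | nil => intro f; simp [mul_nil, one]
  | cons x w ih =>
    intro f
    rw [mul_cons]
    have : (fun u : List X => (one : List X → ℤ) (x :: u)) = fun _ : List X => (0 : ℤ) := by
      funext u; rfl
    rw [this, zero_mul']
    simp [one]

theorem mul_one' : ∀ (w : List X) (f : List X → ℤ), mul f one w = f w := by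
  intro w
  induction w with
  | nil => intro f; simp [mul_nil, one]
  | cons x w ih =>
    intro f
    rw [mul_cons, ih]
    simp [one]

/-- `1 + n x` -/
noncomputable def lin (x : X) (n : ℤ) : List X → ℤ := fun w => match w with
  | [] => 1
  | [y] => if y = x then n else 0
  | _ :: _ :: _ => 0

/-- the inverse of `1 + x` -/
noncomputable def geo (x : X) : List X → ℤ
  | [] => 1
  | y :: w => if y = x then - geo x w else 0

theorem lin_cons (x : X) (n : ℤ) (y : X) :
    (fun u : List X => lin x n (y :: u)) = fun u : List X => (if y = x then n else 0) * one u := by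
  funext u
  cases u with
  | nil => simp [lin, one]
  | cons z u => simp [lin, one]

theorem lin_mul_cons (x : X) (n : ℤ) (f : List X → ℤ) (y : X) (w : List X) :
    mul (lin x n) f (y :: w) = f (y :: w) + (if y = x then n else 0) * f w := by
  rw [mul_cons, lin_cons, const_mul', one_mul']
  simp [lin]

theorem lin_mul_geo (x : X) : mul (lin x 1) (geo x) = one := by
  funext w
  cases w with
  | nil => simp [mul_nil, lin, geo, one]
  | cons y w =>
    rw [lin_mul_cons]
    by_cases h : y = x
    · simp [h, geo, one]
    · simp [h, geo, one]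

theorem geo_mul_lin (x : X) : mul (geo x) (lin x 1) = one := by
  funext w
  induction w with
  | nil => simp [mul_nil, lin, geo, one]
  | cons y w ih =>
    rw [mul_cons]
    by_cases h : y = x
    · subst h
      have h1 : (fun u : List X => geo y (y :: u)) = fun u : List X => (-1) * geo y u := by
        funext u; simp [geo]
      rw [h1, const_mul', ih]
      cases w with
      | nil => simp [geo, lin, one]
      | cons z w => simp [geo, lin, one]
    · have h1 : (fun u : List X => geo x (y :: u)) = fun _ : List X => (0 : ℤ) := by
        funext u; simp [geo, h]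
      rw [h1, zero_mul']
      cases w with
      | nil => simp [geo, lin, one, h]
      | cons z w => simp [geo, lin, one]

/-- equality of the coefficients at all words without equal neighbours -/
def Eqv (f g : List X → ℤ) : Prop := ∀ w : List X, w.IsChain (· ≠ ·) → f w = g w

theorem Eqv.mul' {f f' g g' : List X → ℤ} (hf : Eqv f f') (hg : Eqv g g') :
    Eqv (mul f g) (mul f' g') := by
  intro w hw
  rw [mul_apply, mul_apply]
  exact Finset.sum_congr rfl fun i _ => by
    rw [hf _ (hw.take i), hg _ (hw.drop i)]

theorem lin_mul_lin (x : X) (n m : ℤ) : Eqv (mul (lin x n) (lin x m)) (lin x (n + m)) := by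
  intro w hw
  cases w with
  | nil => rw [mul_nil]; simp [lin]
  | cons y w =>
    rw [lin_mul_cons x n (lin x m) y w]
    cases w with
    | nil =>
      by_cases h : y = x
      · simp [lin, h]; ring
      · simp [lin, h]
    | cons z w =>
      have hyz : y ≠ z := (List.isChain_cons_cons.1 hw).1
      cases w with
      | nil =>
        by_cases h : y = x
        · subst h
          simp [lin, hyz.symm]
        · simp [lin, h]
      | cons t w => simp [lin]

theorem geo_eqv (x : X) : Eqv (geo x) (lin x (-1)) := by
  intro w hw
  cases w with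
  | nil => simp [geo, lin]
  | cons y w =>
    cases w with
    | nil => simp [geo, lin]
    | cons z w =>
      have hyz : y ≠ z := (List.isChain_cons_cons.1 hw).1
      by_cases h : y = x
      · subst h
        simp [geo, lin, hyz.symm]
      · simp [geo, lin, h]

theorem mul_top {f g : List X → ℤ} {a b : ℕ}
    (hf : ∀ w : List X, w.IsChain (· ≠ ·) → a < w.length → f w = 0)
    (hg : ∀ w : List X, w.IsChain (· ≠ ·) → b < w.length → g w = 0) :
    (∀ w : List X, w.IsChain (· ≠ ·) → a + b < w.length → mul f g w = 0) ∧
    ∀ u v : List X, (u ++ v).IsChain (· ≠ ·) → u.length = a → v.length = b →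
      mul f g (u ++ v) = f u * g v := by
  constructor
  · intro w hw hl
    rw [mul_apply]
    refine Finset.sum_eq_zero fun i hi => ?_
    rw [Finset.mem_range] at hi
    by_cases h : a < i
    · rw [hf _ (hw.take i) (by rw [List.length_take]; omega), zero_mul]
    · rw [hg _ (hw.drop i) (by rw [List.length_drop]; omega), mul_zero]
  · intro u v hw hu hv
    rw [mul_apply, Finset.sum_eq_single u.length]
    · rw [List.take_left, List.drop_left]
    · intro i hi hne
      rw [Finset.mem_range, List.length_append] at hi
      by_cases h : a < i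
      · rw [hf _ (hw.take i) (by rw [List.length_take, List.length_append]; omega), zero_mul]
      · rw [hg _ (hw.drop i) (by rw [List.length_drop, List.length_append]; omega), mul_zero]
    · intro h
      exact absurd (Finset.mem_range.2 (by rw [List.length_append]; omega)) h

theorem mul_left_low {a f g : List X → ℤ} (ha : a [] = 1) {w : List X}
    (h : ∀ s : List X, s.length < w.length → f s = g s) :
    mul a f w - mul a g w = f w - g w := by
  rw [mul_apply, mul_apply, ← Finset.sum_sub_distrib, Finset.sum_eq_single 0]
  · simp [ha]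
  · intro i hi hne
    rw [Finset.mem_range] at hi
    rw [h (w.drop i) (by rw [List.length_drop]; omega), sub_self]
  · intro h; simp at h

theorem mul_right_low {a f g : List X → ℤ} (ha : a [] = 1) {w : List X}
    (h : ∀ s : List X, s.length < w.length → f s = g s) :
    mul f a w - mul g a w = f w - g w := by
  rw [mul_apply, mul_apply, ← Finset.sum_sub_distrib, Finset.sum_eq_single w.length]
  · simp [ha]
  · intro i hi hne
    rw [Finset.mem_range] at hi
    rw [h (w.take i) (by rw [List.length_take]; omega), sub_self]
  · intro h; simp at h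

end NS

/-- power series in noncommuting variables, with integer coefficients -/
@[ext]
structure NS (X : Type*) where
  c : List X → ℤ

namespace NS

variable {X : Type*}

instance : Monoid (NS X) where
  mul f g := ⟨mul f.c g.c⟩
  one := ⟨one⟩
  mul_assoc f g h := NS.ext (funext fun w => assoc w f.c g.c h.c)
  one_mul f := NS.ext (funext fun w => one_mul' w f.c)
  mul_one f := NS.ext (funext fun w => mul_one' w f.c)

theorem mul_c (f g : NS X) : (f * g).c = mul f.c g.c := rfl

theorem one_c : (1 : NS X).c = one := rfl

/-- the unit `1 + x` -/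
noncomputable def e (x : X) : (NS X)ˣ where
  val := ⟨lin x 1⟩
  inv := ⟨geo x⟩
  val_inv := NS.ext (lin_mul_geo x)
  inv_val := NS.ext (geo_mul_lin x)

theorem e_c (x : X) : ((e x : (NS X)ˣ) : NS X).c = lin x 1 := rfl

theorem e_inv_c (x : X) : (((e x)⁻¹ : (NS X)ˣ) : NS X).c = geo x := rfl

theorem zpow_eqv (x : X) (n : ℤ) : Eqv ((e x ^ n : (NS X)ˣ) : NS X).c (lin x n) := by
  induction n with
  | zero =>
    intro w _
    rw [zpow_zero, Units.val_one, one_c]
    cases w with
    | nil => rfl
    | cons y w => cases w with
      | nil => simp [lin, one]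
      | cons z w => rfl
  | succ n ih =>
    rw [zpow_add_one, Units.val_mul, mul_c, e_c]
    intro w hw
    rw [Eqv.mul' ih (fun v _ => rfl : Eqv (lin x 1) (lin x 1)) w hw, lin_mul_lin x _ _ w hw]
  | pred n ih =>
    rw [zpow_sub_one, Units.val_mul, mul_c, e_inv_c]
    intro w hw
    rw [Eqv.mul' ih (geo_eqv x) w hw, lin_mul_lin x _ _ w hw, sub_eq_add_neg]

open Monoid

/-- the map on the free product of infinite cyclic groups -/
noncomputable def phi (X : Type*) : CoprodI (fun _ : X => FreeGroup Unit) →* (NS X)ˣ :=
  CoprodI.lift fun i => FreeGroup.lift fun _ => e i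

theorem exists_zpow (h : FreeGroup Unit) : ∃ n : ℤ, h = FreeGroup.of () ^ n :=
  ⟨FreeGroup.freeGroupUnitEquivInt h, (FreeGroup.freeGroupUnitEquivInt.symm_apply_apply h).symm⟩

theorem top_term {i j : X} (w : CoprodI.NeWord (fun _ : X => FreeGroup Unit) i j) :
    ∃ u : List X, u.IsChain (· ≠ ·) ∧ u.head? = some i ∧ u.getLast? = some j ∧
      ((phi X w.prod : (NS X)ˣ) : NS X).c u ≠ 0 ∧
      ∀ v : List X, v.IsChain (· ≠ ·) → u.length < v.length →
        ((phi X w.prod : (NS X)ˣ) : NS X).c v = 0 := by
  induction w with
  | @singleton i h hh =>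
    obtain ⟨n, rfl⟩ := exists_zpow h
    have hn : n ≠ 0 := by
      rintro rfl
      exact hh (zpow_zero _)
    have h1 : phi X (CoprodI.NeWord.singleton (M := fun _ : X => FreeGroup Unit) (i := i)
        (FreeGroup.of () ^ n) hh).prod = e i ^ n := by
      rw [CoprodI.NeWord.prod_singleton, phi, CoprodI.lift_of, map_zpow, FreeGroup.lift_apply_of]
    refine ⟨[i], List.isChain_singleton _, rfl, rfl, ?_, ?_⟩
    · rw [h1, zpow_eqv i n [i] (List.isChain_singleton _)]
      simpa [lin] using hn
    · intro v hv hl
      rw [h1, zpow_eqv i n v hv]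
      match v, hl with
      | _ :: _ :: _, _ => rfl
  | @append i j k l w₁ hne w₂ ih₁ ih₂ =>
    obtain ⟨u₁, hu₁, hh₁, hl₁, hn₁, hz₁⟩ := ih₁
    obtain ⟨u₂, hu₂, hh₂, hl₂, hn₂, hz₂⟩ := ih₂
    have hc : (u₁ ++ u₂).IsChain (· ≠ ·) := by
      refine List.IsChain.append hu₁ hu₂ ?_
      intro x hx y hy
      rw [hl₁, Option.mem_some_iff] at hx
      rw [hh₂, Option.mem_some_iff] at hy
      subst hx
      subst hy
      exact hne
    have hp : ((phi X (CoprodI.NeWord.append w₁ hne w₂).prod : (NS X)ˣ) : NS X).c =
        mul ((phi X w₁.prod : (NS X)ˣ) : NS X).c ((phi X w₂.prod : (NS X)ˣ) : NS X).c := by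
      rw [CoprodI.NeWord.append_prod, map_mul, Units.val_mul, mul_c]
    obtain ⟨ht1, ht2⟩ := mul_top hz₁ hz₂
    refine ⟨u₁ ++ u₂, hc, ?_, ?_, ?_, ?_⟩
    · rw [List.head?_append, hh₁]; rfl
    · rw [List.getLast?_append, hl₂]; rfl
    · rw [hp, ht2 u₁ u₂ hc rfl rfl]
      exact mul_ne_zero hn₁ hn₂
    · intro v hv hl
      rw [hp]
      exact ht1 v hv (by rwa [List.length_append] at hl)

theorem phi_injective (X : Type*) : Function.Injective (phi X) := by
  rw [injective_iff_map_eq_one]
  intro g hg
  by_contra hne
  have hw : CoprodI.Word.equiv g ≠ CoprodI.Word.empty := by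
    intro h
    apply hne
    have := CoprodI.Word.equiv.symm_apply_apply g
    rw [h] at this
    rw [← this]
    exact CoprodI.Word.prod_empty
  obtain ⟨i, j, w', hw'⟩ := CoprodI.NeWord.of_word _ hw
  have hprod : w'.prod = g := by
    rw [CoprodI.NeWord.prod, hw']
    exact CoprodI.Word.equiv.symm_apply_apply g
  obtain ⟨u, -, hh, -, hn, -⟩ := top_term w'
  rw [hprod, hg, Units.val_one, one_c] at hn
  cases u with
  | nil => simp at hh
  | cons y u => exact hn rfl

end NS

open NS

/-- the Magnus embedding -/
noncomputable def magnus (X : Type*) : FreeGroup X →* (NS X)ˣ :=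
  (phi X).comp freeGroupEquivCoprodI.toMonoidHom

/-- the Magnus series of an element -/
noncomputable def ser {X : Type*} (g : FreeGroup X) : List X → ℤ :=
  ((magnus X g : (NS X)ˣ) : NS X).c

theorem magnus_injective (X : Type*) : Function.Injective (magnus X) :=
  (phi_injective X).comp freeGroupEquivCoprodI.injective

theorem ser_injective (X : Type*) : Function.Injective (ser : FreeGroup X → List X → ℤ) :=
  fun _ _ h => magnus_injective X (Units.ext (NS.ext h))

theorem ser_mul {X : Type*} (g h : FreeGroup X) : ser (g * h) = mul (ser g) (ser h) := by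
  simp [ser, mul_c]

theorem magnus_of {X : Type*} (x : X) : magnus X (FreeGroup.of x) = e x := by
  simp [magnus, phi]

theorem ser_nil {X : Type*} (g : FreeGroup X) : ser g [] = 1 := by
  induction g using FreeGroup.induction_on with
  | C1 => simp [ser, one_c, one]
  | of x => rw [ser, magnus_of, e_c]; simp [lin]
  | inv_of x _ => rw [ser, map_inv, magnus_of, e_inv_c]; simp [geo]
  | mul x y hx hy => rw [ser_mul, mul_nil, hx, hy, mul_one]

/-- a well-order of the words by length -/
theorem exists_lenOrder (X : Type*) : ∃ ord : LinearOrder (List X),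
    @WellFoundedLT (List X) ord.toLT ∧ ∀ s w : List X, s.length < w.length → ord.lt s w := by
  obtain ⟨r, hr⟩ := exists_wellFoundedLT (List X)
  have wf := (wellFounded_lt (α := ℕ ×ₗ List X))
  let key : List X → ℕ ×ₗ List X := fun w => toLex (w.length, w)
  have hkey : Function.Injective key := fun a b h => (Prod.ext_iff.1 (toLex.injective h)).2
  exact ⟨LinearOrder.lift' key hkey, ⟨InvImage.wf key wf⟩,
    fun s w h => (Prod.Lex.toLex_lt_toLex.2 (Or.inl h) : key s < key w)⟩

/-- Free groups are bi-orderable. -/
theorem exists_biOrder (X : Type*) :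
    ∃ _ : LinearOrder (FreeGroup X), MulLeftMono (FreeGroup X) ∧ MulRightMono (FreeGroup X) := by
  obtain ⟨ord, hwf, hlen⟩ := exists_lenOrder X
  let F : FreeGroup X → Lex (List X → ℤ) := fun g => toLex (ser g)
  have hF : Function.Injective F := fun a b h => ser_injective X (toLex.injective h)
  let L : LinearOrder (Lex (List X → ℤ)) := @Pi.Lex.linearOrder (List X) (fun _ => ℤ) ord hwf _
  have hL : ∀ f g : List X → ℤ, L.lt (toLex f) (toLex g) ↔
      ∃ w, (∀ v, ord.lt v w → f v = g v) ∧ f w < g w := fun f g => Iff.rfl
  refine ⟨@LinearOrder.lift' _ _ L F hF, ?_, ?_⟩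
  · constructor
    intro a b c hbc
    change L.le (F (a * b)) (F (a * c))
    change L.le (F b) (F c) at hbc
    rcases (@le_iff_lt_or_eq _ L.toPartialOrder _ _).1 hbc with h | h
    · refine (@le_iff_lt_or_eq _ L.toPartialOrder _ _).2 (Or.inl ?_)
      obtain ⟨w, hw, hlt⟩ := (hL _ _).1 h
      refine (hL _ _).2 ⟨w, fun v hv => ?_, ?_⟩
      · rw [ser_mul, ser_mul]
        have := mul_left_low (ser_nil a) (f := ser b) (g := ser c) (w := v)
          fun s hs => hw s (@lt_trans _ ord.toPreorder _ _ _ (hlen s v hs) hv)
        rw [hw v hv, sub_self] at this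
        exact sub_eq_zero.1 this
      · rw [ser_mul, ser_mul]
        have := mul_left_low (ser_nil a) (f := ser b) (g := ser c) (w := w)
          fun s hs => hw s (hlen s w hs)
        linarith
    · rw [hF h]
  · constructor
    intro a b c hbc
    change L.le (F (b * a)) (F (c * a))
    change L.le (F b) (F c) at hbc
    rcases (@le_iff_lt_or_eq _ L.toPartialOrder _ _).1 hbc with h | h
    · refine (@le_iff_lt_or_eq _ L.toPartialOrder _ _).2 (Or.inl ?_)
      obtain ⟨w, hw, hlt⟩ := (hL _ _).1 h
      refine (hL _ _).2 ⟨w, fun v hv => ?_, ?_⟩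
      · rw [ser_mul, ser_mul]
        have := mul_right_low (ser_nil a) (f := ser b) (g := ser c) (w := v)
          fun s hs => hw s (@lt_trans _ ord.toPreorder _ _ _ (hlen s v hs) hv)
        rw [hw v hv, sub_self] at this
        exact sub_eq_zero.1 this
      · rw [ser_mul, ser_mul]
        have := mul_right_low (ser_nil a) (f := ser b) (g := ser c) (w := w)
          fun s hs => hw s (hlen s w hs)
        linarith
    · rw [hF h]

end Pool.Agent.Helper36.HL
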