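import Pool.Agent.Helper79.HL.PeelDefs

/-! # Elimination of unknowns along a peeling, and the count of the free unknowns

Item (5c) of note 2702, the part without the group `B`. -/

set_option autoImplicit false

namespace Pool.Agent.Helper36.HL

open Pool.Agent.Helper79.HL Function

section elim

variable {V E Y : Type} [DecidableEq E] [DecidableEq V] [DecidableEq Y]

/-- The relation of the edge `a`. -/
def Rel {G : Type} [Group G] (src tgt : E → V) (f : E → Y) (α : E → G) (u : V ⊕ Y → G) (a : E) :
    Prop :=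
  α a * u (.inl (tgt a)) = u (.inl (src a)) * u (.inr (f a))

/-- The unknown `y` does not occur in the relation of `a`. -/
def Away (src tgt : E → V) (f : E → Y) (y : V ⊕ Y) (a : E) : Prop :=
  y ≠ .inl (src a) ∧ y ≠ .inl (tgt a) ∧ y ≠ .inr (f a)

omit [DecidableEq E] in
theorem rel_update {G : Type} [Group G] {src tgt : E → V} {f : E → Y} {α : E → G}
    {u : V ⊕ Y → G} {a : E} {y : V ⊕ Y} (h : Away src tgt f y a) (g : G) :
    Rel src tgt f α (update u y g) a ↔ Rel src tgt f α u a := by
  unfold Rel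
  rw [update_of_ne h.1.symm, update_of_ne h.2.1.symm, update_of_ne h.2.2.symm]

/-- The statement of the elimination: the unknowns in `T` are determined by the others. -/
def Elim (src tgt : E → V) (f : E → Y) (S : Finset E) (T : Finset (V ⊕ Y)) : Prop :=
  ∀ (G : Type) [Group G] (α : E → G),
    (∀ u₀ : V ⊕ Y → G, ∃ u : V ⊕ Y → G, (∀ y, y ∉ T → u y = u₀ y) ∧
      ∀ a ∈ S, Rel src tgt f α u a) ∧
    ∀ u u' : V ⊕ Y → G, (∀ y, y ∉ T → u y = u' y) → (∀ a ∈ S, Rel src tgt f α u a) →
      (∀ a ∈ S, Rel src tgt f α u' a) → u = u'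

theorem elim_step {src tgt : E → V} {f : E → Y} {S : Finset E} {e : E} (he : e ∈ S) {y : V ⊕ Y}
    (hy : ∀ a ∈ S.erase e, Away src tgt f y a) (hy' : ¬ Away src tgt f y e)
    (hsolve : ∀ (G : Type) [Group G] (α : E → G) (u : V ⊕ Y → G), ∃ g₀, ∀ g,
      Rel src tgt f α (update u y g) e ↔ g = g₀)
    (ih : ∃ T : Finset (V ⊕ Y), T.card = (S.erase e).card ∧
      (∀ y ∈ T, ∃ a ∈ S.erase e, ¬ Away src tgt f y a) ∧ Elim src tgt f (S.erase e) T) :
    ∃ T : Finset (V ⊕ Y), T.card = S.card ∧ (∀ y ∈ T, ∃ a ∈ S, ¬ Away src tgt f y a) ∧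
      Elim src tgt f S T := by
  obtain ⟨T, hT, hT', hel⟩ := ih
  have hyT : y ∉ T := fun h => by
    obtain ⟨a, ha, hna⟩ := hT' y h
    exact hna (hy a ha)
  refine ⟨insert y T, ?_, ?_, ?_⟩
  · rw [Finset.card_insert_of_notMem hyT, hT, Finset.card_erase_add_one he]
  · intro z hz
    rcases Finset.mem_insert.1 hz with rfl | hz
    · exact ⟨e, he, hy'⟩
    · obtain ⟨a, ha, hna⟩ := hT' z hz
      exact ⟨a, Finset.mem_of_mem_erase ha, hna⟩
  · intro G _ α
    obtain ⟨hex, huniq⟩ := hel G α
    constructor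
    · intro u₀
      obtain ⟨u, hu, hrel⟩ := hex u₀
      obtain ⟨g₀, hg₀⟩ := hsolve G α u
      refine ⟨update u y g₀, ?_, ?_⟩
      · intro z hz
        rw [Finset.mem_insert, not_or] at hz
        rw [update_of_ne hz.1, hu z hz.2]
      · intro a ha
        by_cases hae : a = e
        · subst hae
          exact (hg₀ g₀).2 rfl
        · have ha' : a ∈ S.erase e := Finset.mem_erase.2 ⟨hae, ha⟩
          exact (rel_update (hy a ha') g₀).2 (hrel a ha')
    · intro u u' huu hu hu'
      have h1 : u = update u' y (u y) := by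
        refine huniq _ _ ?_ (fun a ha => hu a (Finset.mem_of_mem_erase ha)) ?_
        · intro z hz
          by_cases hzy : z = y
          · subst hzy; rw [update_self]
          · rw [update_of_ne hzy]
            exact huu z (by rw [Finset.mem_insert, not_or]; exact ⟨hzy, hz⟩)
        · intro a ha
          exact (rel_update (hy a ha) _).2 (hu' a (Finset.mem_of_mem_erase ha))
      obtain ⟨g₀, hg₀⟩ := hsolve G α u'
      have h2 : u y = g₀ := (hg₀ _).1 (by rw [← h1]; exact hu e he)
      have h3 : u' y = g₀ := (hg₀ _).1 (by rw [update_eq_self]; exact hu' e he)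
      rw [h1, h2, ← h3, update_eq_self]

theorem elim_of_peel {src tgt : E → V} {f : E → Y} {S : Finset E} (h : Peel src tgt f S) :
    ∃ T : Finset (V ⊕ Y), T.card = S.card ∧ (∀ y ∈ T, ∃ a ∈ S, ¬ Away src tgt f y a) ∧
      Elim src tgt f S T := by
  induction h with
  | empty =>
    refine ⟨∅, rfl, by simp, fun G _ α => ⟨fun u₀ => ⟨u₀, fun _ _ => rfl, by simp⟩, ?_⟩⟩
    intro u u' h _ _
    exact funext fun y => h y (by simp)
  | leaf S e he _ ih =>
    obtain ⟨heS, hne, v, hv, hu⟩ := he
    refine elim_step heS (y := .inl v) ?_ ?_ ?_ ih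
    · intro a ha
      have hae : a ≠ e := Finset.ne_of_mem_erase ha
      have hni : ¬ Inc src tgt v a := fun h => hae (hu a (Finset.mem_of_mem_erase ha) h)
      refine ⟨fun h => hni (Or.inl (Sum.inl_injective h).symm),
        fun h => hni (Or.inr (Sum.inl_injective h).symm), by simp⟩
    · rintro ⟨h1, h2, -⟩
      rcases hv with rfl | rfl
      · exact h1 rfl
      · exact h2 rfl
    · intro G _ α u
      rcases hv with rfl | rfl
      · refine ⟨α e * u (.inl (tgt e)) * (u (.inr (f e)))⁻¹, fun g => ?_⟩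
        unfold Rel
        rw [update_of_ne (by simpa using hne.symm), update_self, update_of_ne (by simp)]
        constructor
        · intro h; rw [h]; group
        · rintro rfl; group
      · refine ⟨(α e)⁻¹ * (u (.inl (src e)) * u (.inr (f e))), fun g => ?_⟩
        unfold Rel
        rw [update_of_ne (a := Sum.inl (src e)) (by simpa using hne), update_self,
          update_of_ne (by simp)]
        constructor
        · intro h; rw [← h]; group
        · rintro rfl; group
  | alone S e he _ ih =>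
    obtain ⟨heS, hu⟩ := he
    refine elim_step heS (y := .inr (f e)) ?_ ?_ ?_ ih
    · intro a ha
      have hae : a ≠ e := Finset.ne_of_mem_erase ha
      exact ⟨by simp, by simp,
        fun h => hae (hu a (Finset.mem_of_mem_erase ha) (Sum.inr_injective h).symm)⟩
    · rintro ⟨-, -, h⟩
      exact h rfl
    · intro G _ α u
      refine ⟨(u (.inl (src e)))⁻¹ * (α e * u (.inl (tgt e))), fun g => ?_⟩
      unfold Rel
      rw [update_of_ne (by simp), update_of_ne (by simp), update_self]
      constructor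
      · intro h; rw [h]; group
      · rintro rfl; group

end elim

section count

/-- The retraction of `FreeGroup (X ⊕ S)` to `FreeGroup X`. -/
def retr (X S : Type) : FreeGroup (X ⊕ S) →* FreeGroup X :=
  FreeGroup.lift (Sum.elim FreeGroup.of fun _ => 1)

/-- The inclusion of `FreeGroup X` in `FreeGroup (X ⊕ S)`. -/
def incl (X S : Type) : FreeGroup X →* FreeGroup (X ⊕ S) :=
  FreeGroup.lift fun x => FreeGroup.of (.inl x)

theorem retr_incl (X S : Type) (g : FreeGroup X) : retr X S (incl X S g) = g := by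
  have : (retr X S).comp (incl X S) = MonoidHom.id _ := by
    ext x; simp [retr, incl]
  exact DFunLike.congr_fun this g

/-- The count of the free unknowns. `hgauge`: every solution of the relations over
`FreeGroup (X ⊕ S)` which is standard modulo the letters in `S` is gauge equivalent to the standard
solution. -/
theorem count_le {X V E V' Y : Type} [DecidableEq E] {src tgt : E → V} {f : E → Y}
    {ES : Finset E} (h : Peel src tgt f ES) (VS : Finset V) (YS : Finset Y) (VS' : Finset V')
    (s' t' : Y → V') (fV : V → V') (lab : Y → FreeGroup X)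
    (hsrc : ∀ a ∈ ES, src a ∈ VS) (htgt : ∀ a ∈ ES, tgt a ∈ VS) (hf : ∀ a ∈ ES, f a ∈ YS)
    (hs' : ∀ y ∈ YS, s' y ∈ VS') (ht' : ∀ y ∈ YS, t' y ∈ VS') (hfV : ∀ v ∈ VS, fV v ∈ VS')
    (hgauge : ∀ (S : Type) [Fintype S] (β : Y → FreeGroup (X ⊕ S)) (ψ : V → FreeGroup (X ⊕ S)),
      (∀ a ∈ ES, incl X S (lab (f a)) * ψ (tgt a) = ψ (src a) * β (f a)) →
      (∀ y, retr X S (β y) = lab y) → (∀ v, retr X S (ψ v) = 1) →
      ∃ g : V' → FreeGroup (X ⊕ S),
        (∀ y ∈ YS, β y = (g (s' y))⁻¹ * incl X S (lab y) * g (t' y)) ∧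
        ∀ v ∈ VS, ψ v = g (fV v)) :
    VS.card + YS.card ≤ VS'.card + ES.card := by
  classical
  obtain ⟨T, hT, hTs, hel⟩ := elim_of_peel h
  let U : Finset (V ⊕ Y) := VS.disjSum YS
  have hTU : T ⊆ U := by
    intro y hy
    obtain ⟨a, ha, hna⟩ := hTs y hy
    rw [Finset.mem_disjSum]
    by_contra hc
    refine hna ⟨?_, ?_, ?_⟩
    · rintro rfl; exact hc (Or.inl ⟨_, hsrc a ha, rfl⟩)
    · rintro rfl; exact hc (Or.inl ⟨_, htgt a ha, rfl⟩)
    · rintro rfl; exact hc (Or.inr ⟨_, hf a ha, rfl⟩)
  let S : Type := {y : V ⊕ Y // y ∈ U \ T}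
  -- the standard solution
  let ust : V ⊕ Y → FreeGroup X := Sum.elim (fun _ => 1) lab
  obtain ⟨hex, -⟩ := hel (FreeGroup (X ⊕ S)) fun a => incl X S (lab (f a))
  obtain ⟨-, huniq⟩ := hel (FreeGroup X) fun a => lab (f a)
  obtain ⟨u, hu, hrel⟩ := hex fun y => if hy : y ∈ U \ T then
    incl X S (ust y) * FreeGroup.of (.inr ⟨y, hy⟩) else incl X S (ust y)
  have hr : (fun y => retr X S (u y)) = ust := by
    refine huniq _ _ ?_ ?_ ?_
    · intro y hy
      simp only [hu y hy]
      by_cases hyU : y ∈ U \ T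
      · simp only [dif_pos hyU, map_mul, retr_incl]
        simp [retr]
      · simp only [dif_neg hyU, retr_incl]
    · intro a ha
      have := congrArg (retr X S) (hrel a ha)
      simpa only [Rel, map_mul, retr_incl] using this
    · intro a _
      simp [Rel, ust]
  obtain ⟨g, hg1, hg2⟩ := hgauge S (fun y => u (.inr y)) (fun v => u (.inl v))
    (fun a ha => hrel a ha) (fun y => congrFun hr (.inr y))
    (fun v => congrFun hr (.inl v))
  -- pass to the abelian quotient
  let q : FreeGroup (X ⊕ S) →* Multiplicative (S → ZMod 2) :=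
    FreeGroup.lift (Sum.elim (fun _ => 1) fun s => Multiplicative.ofAdd (Pi.single s 1))
  have hqi : ∀ x : FreeGroup X, q (incl X S x) = 1 := by
    intro x
    have : q.comp (incl X S) = 1 := by
      ext x; simp [q, incl]
    exact DFunLike.congr_fun this x
  let c : {w // w ∈ VS'} → (S → ZMod 2) := fun w => (q (g w)).toAdd
  have hspan : ∀ s : S, (Pi.single s 1 : S → ZMod 2) ∈
      Submodule.span (ZMod 2) (Set.range c) := by
    intro s
    have hsT : s.1 ∉ T := (Finset.mem_sdiff.1 s.2).2
    have hsU : s.1 ∈ VS.disjSum YS := (Finset.mem_sdiff.1 s.2).1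
    have h1 : q (u s.1) = Multiplicative.ofAdd (Pi.single s 1) := by
      rw [hu s.1 hsT, dif_pos s.2, map_mul, hqi, one_mul]
      simp [q]
    rw [Finset.mem_disjSum] at hsU
    rcases hsU with ⟨v, hv, hs⟩ | ⟨y, hy, hs⟩
    · rw [← hs, hg2 v hv] at h1
      have h2 : c ⟨fV v, hfV v hv⟩ = Pi.single s 1 := by
        simp only [c, h1, toAdd_ofAdd]
      rw [← h2]
      exact Submodule.subset_span ⟨_, rfl⟩
    · rw [← hs, hg1 y hy, map_mul, map_mul, map_inv, hqi, mul_one] at h1
      have h2 : -c ⟨s' y, hs' y hy⟩ + c ⟨t' y, ht' y hy⟩ = Pi.single s 1 := by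
        have := congrArg Multiplicative.toAdd h1
        simpa only [toAdd_mul, toAdd_inv, toAdd_ofAdd] using this
      rw [← h2]
      exact Submodule.add_mem _ (Submodule.neg_mem _ (Submodule.subset_span ⟨_, rfl⟩))
        (Submodule.subset_span ⟨_, rfl⟩)
  have htop : Submodule.span (ZMod 2) (Set.range c) = ⊤ := by
    rw [eq_top_iff]
    intro x _
    rw [pi_eq_sum_univ' x]
    refine Submodule.sum_mem _ fun s _ => Submodule.smul_mem _ _ ?_
    have := hspan s
    convert this using 1
  have hcard : Fintype.card S ≤ VS'.card := by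
    have h1 := finrank_range_le_card (R := ZMod 2) c
    rw [Set.finrank, htop, finrank_top, Module.finrank_fintype_fun_eq_card] at h1
    exact h1.trans_eq (Fintype.card_coe VS')
  have hS : Fintype.card S = VS.card + YS.card - ES.card := by
    have h1 : Fintype.card S = (U \ T).card := Fintype.card_coe _
    rw [h1, Finset.card_sdiff_of_subset hTU, hT, Finset.card_disjSum]
  omega

end count

end Pool.Agent.Helper36.HL
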