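import Pool.Agent.Helper36.HL.BiOrder
import Pool.Agent.Helper45.BH.MN
import Pool.Agent.Helper72.BH.MNDefs

/-! # The division ring of series over a free group -/

set_option autoImplicit false

namespace Pool.Agent.Helper36.HL

open Pool.Agent.Helper72.BH

theorem exists_MN (R : ℕ) : ∃ (D : Type) (_ : DivisionRing D), Nonempty (MN R D) := by
  obtain ⟨ord, hl, hr⟩ := exists_biOrder (Fin R)
  have : Fact (Nat.Prime 2) := ⟨Nat.prime_two⟩
  refine ⟨Pool.Agent.Helper45.BH.MN (ZMod 2) (FreeGroup (Fin R)), inferInstance, ⟨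
    { co := fun a g => a.coeff g
      u := Pool.Agent.Helper45.BH.MN.of
      co_inj := fun a b h => Pool.Agent.Helper45.BH.MN.ext h
      co_add := fun a b g => rfl
      co_u := fun g h => by
        rw [Pool.Agent.Helper45.BH.MN.coeff_of g h]
        congr
      co_u_mul := fun x a g => Pool.Agent.Helper45.BH.MN.coeff_of_mul x a g
      co_mul_u := fun a x g => Pool.Agent.Helper45.BH.MN.coeff_mul_of x a g
      fin := fun a b f => Pool.Agent.Helper45.BH.finite_pair a.pwo b.pwo f
      restr := fun S a => ⟨Pool.Agent.Helper45.BH.MN.restr S a,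
        fun g hg => Pool.Agent.Helper45.BH.MN.coeff_restr_of_mem hg a,
        fun g hg => Pool.Agent.Helper45.BH.MN.coeff_restr_of_notMem hg a⟩ }⟩⟩

end Pool.Agent.Helper36.HL
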